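import Pool.Agent.Helper68.Dom.Goals

/-!
# Project DOM, packet CASEB
-/

set_option autoImplicit false

namespace NApexGraphs.Dom.Helper76

open SimpleGraph NApexGraphs NApexGraphs.Dom NApexGraphs.Dom.Goals

/-- a connected subset of `O` which meets a component lies in it -/
theorem subset_of_meet {V : Type} {G : SimpleGraph V} {O C D : Set V} (hC : IsComp G O C)
    (hD : Conn G D) (hDO : D ⊆ O) {r : V} (hrD : r ∈ D) (hrC : r ∈ C) : D ⊆ C := by
  have h1 := hD.2 (D ∩ C) Set.inter_subset_left ⟨r, hrD, hrC⟩ (by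
    intro a ha b hb hab
    exact ⟨hb, hC.closed a ha.2 b (hDO hb) hab⟩)
  intro y hy
  exact (h1 hy).2

theorem aux1 {a b c d : Prop} : (a ∨ b ∨ c ∨ d) ↔ ((c ∨ d ∨ a) ∨ b) := by tauto

theorem aux2 {a b c d : Prop} : (a ∨ b ∨ c ∨ d) ↔ (a ∨ b ∨ d ∨ c) := by tauto

theorem aux3 {a b c d e : Prop} :
    (¬ a ∧ ¬ (b ∨ c ∨ d ∨ e)) ↔ ((¬ a ∧ ¬ b ∧ ¬ c) ∧ ¬ (d ∨ e)) := by tauto

theorem gCASEB : Goals.XCON → Goals.COMPS → Goals.LOWN → Goals.THIRD → Goals.SING →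
    Goals.CASEB := by
  classical
  intro hXCON hCOMPS hLOWN hTHIRD hSING V _ G n u x hset hxu hdeg
  obtain ⟨X, p, q, hc⟩ := hXCON V G n u x hset hxu hdeg
  obtain ⟨hpX, hpu, hpx⟩ := hc.hp
  obtain ⟨hqX, hqu, hqx⟩ := hc.hq
  have hO : ((X : Set V)ᶜ) \ {u, x, p, q} = Rest u x X \ {p, q} := by
    ext z
    simp only [Rest, Set.mem_sdiff, Set.mem_compl_iff, Finset.mem_coe, Set.mem_insert_iff,
      Set.mem_singleton_iff, Set.mem_ofPred_eq]
    exact aux3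
  obtain ⟨C1, C2, h1, h2, hdis, t1p, t1q, t2p, t2q⟩ := hCOMPS V G ((X : Set V)ᶜ) u x p q
    (fun h => hc.ps.hu h) (fun h => hc.ps.hx h) (fun h => hpX h) (fun h => hqX h) hxu.symm hpx hqx
    hpu hqu hc.pq hset.dom ((hc.nx p).2 (Or.inr (Or.inr (Or.inl rfl))))
    ((hc.nx q).2 (Or.inr (Or.inr (Or.inr rfl))))
    (by
      intro z hz hxz
      rcases (hc.nx z).1 hxz with h | h
      · exact absurd h hz
      · exact h)
    hc.ps.pl (hset.non X hc.ps.card.le)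
  rw [hO] at h1 h2
  obtain ⟨r1, hr1, c1, d1, hl1⟩ := hLOWN V G n u x p q X hc C1 h1
  obtain ⟨r2, hr2, c2, d2, hl2⟩ := hLOWN V G n u x p q X hc C2 h2
  have hs1 : ∀ s ∈ X, G.Adj r1 s := fun s hs => (hl1.2.2.2 s).2 (Or.inl hs)
  have hs2 : ∀ s ∈ X, G.Adj r2 s := fun s hs => (hl2.2.2.2 s).2 (Or.inl hs)
  have hcc : CConf G n u x p q X C1 C2 r1 r2 :=
    ⟨hc, h1, h2, hdis, t1p, t1q, t2p, t2q, hr1, hr2, hs1, hs2⟩
  have hcc' : CConf G n u x p q X C2 C1 r2 r1 :=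
    ⟨hc, h2, h1, hdis.symm, t2p, t2q, t1p, t1q, hr2, hr1, hs2, hs1⟩
  obtain ⟨e1, f1⟩ := hSING V G n u x p q X C1 C2 r1 r2 hcc c1 d1 hl1
  obtain ⟨e2, f2⟩ := hSING V G n u x p q X C2 C1 r2 r1 hcc' c2 d2 hl2
  have g1 : r1 ∈ Rest u x X \ {p, q} := h1.sub hr1
  have g2 : r2 ∈ Rest u x X \ {p, q} := h2.sub hr2
  have hall : ∀ v ∈ Rest u x X \ {p, q}, v = r1 ∨ v = r2 := by
    intro v hv
    obtain ⟨C, hC, hvC⟩ := exists_comp (Conn.singleton G v) (Set.singleton_subset_iff.2 hv)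
    obtain ⟨r, hr, c, d, hl⟩ := hLOWN V G n u x p q X hc C hC
    rcases hTHIRD V G n u x p q X C1 C2 r1 r2 hcc r c d (hC.sub hr) hl with h | h
    · have h3 := subset_of_meet h1 hC.conn hC.sub hr h (Set.singleton_subset_iff.1 hvC)
      rw [e1] at h3
      exact Or.inl h3
    · have h3 := subset_of_meet h2 hC.conn hC.sub hr h (Set.singleton_subset_iff.1 hvC)
      rw [e2] at h3
      exact Or.inr h3
  have k1 : ∀ v, G.Adj r1 v ↔ v ∈ X ∨ v = u ∨ v = p ∨ v = q := by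
    intro v
    rw [hl1.2.2.2 v]
    rcases f1 with ⟨rfl, rfl⟩ | ⟨rfl, rfl⟩
    · exact Iff.rfl
    · exact aux2
  have k2 : ∀ v, G.Adj r2 v ↔ v ∈ X ∨ v = u ∨ v = p ∨ v = q := by
    intro v
    rw [hl2.2.2.2 v]
    rcases f2 with ⟨rfl, rfl⟩ | ⟨rfl, rfl⟩
    · exact Iff.rfl
    · exact aux2
  have hN : ∀ v, v ∈ insert p (insert q X) ↔ v = p ∨ v = q ∨ v ∈ X := by
    intro v
    rw [Finset.mem_insert, Finset.mem_insert]
  obtain ⟨⟨g1a, g1b, g1c⟩, g1d⟩ := g1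
  obtain ⟨⟨g2a, g2b, g2c⟩, g2d⟩ := g2
  rw [Set.mem_insert_iff, Set.mem_singleton_iff] at g1d g2d
  refine ⟨r1, r2, insert p (insert q X), ?_⟩
  refine ⟨?_, g1c.symm, g2c.symm, ?_, hxu.symm, g1b.symm, g2b.symm, ?_, ?_, ?_, ?_, ?_, ?_, ?_, ?_⟩
  · rw [Finset.card_insert_of_notMem, Finset.card_insert_of_notMem hqX, hc.ps.card]
    rw [Finset.mem_insert]
    rintro (h | h)
    · exact hc.pq h
    · exact hpX h
  · rintro rfl
    exact (Set.disjoint_left.1 hdis hr1) hr2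
  · rw [hN]
    rintro (h | h | h)
    · exact hpu h.symm
    · exact hqu h.symm
    · exact hc.ps.hu h
  · rw [hN]
    rintro (h | h | h)
    · exact hpx h.symm
    · exact hqx h.symm
    · exact hc.ps.hx h
  · rw [hN]
    rintro (h | h | h)
    · exact g1d (Or.inl h)
    · exact g1d (Or.inr h)
    · exact g1a h
  · rw [hN]
    rintro (h | h | h)
    · exact g2d (Or.inl h)
    · exact g2d (Or.inr h)
    · exact g2a h
  · intro v
    rw [hN]
    by_cases a1 : v ∈ X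
    · exact Or.inl (Or.inr (Or.inr a1))
    by_cases a2 : v = u
    · exact Or.inr (Or.inl a2)
    by_cases a3 : v = x
    · exact Or.inr (Or.inr (Or.inl a3))
    by_cases a4 : v = p
    · exact Or.inl (Or.inl a4)
    by_cases a5 : v = q
    · exact Or.inl (Or.inr (Or.inl a5))
    rcases hall v ⟨⟨a1, a2, a3⟩, by
      rw [Set.mem_insert_iff, Set.mem_singleton_iff]
      exact fun h => h.elim a4 a5⟩ with h | h
    · exact Or.inr (Or.inr (Or.inr (Or.inl h)))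
    · exact Or.inr (Or.inr (Or.inr (Or.inr h)))
  · intro v
    rw [hc.nx v, hN]
    exact aux1
  · intro v
    rw [k1 v, hN]
    exact aux1
  · intro v
    rw [k2 v, hN]
    exact aux1

end NApexGraphs.Dom.Helper76
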